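import Mathlib

namespace Pool.Agent.Results.MP_ebd346_nt.Inf

def Tri (s a b : ℕ) (h : ℝ) : Prop :=
  0 < s ∧ 0 < a ∧ 0 < b ∧ 0 < h ∧ ∃ t : ℝ, t ^ 2 + h ^ 2 = a ^ 2 ∧ (t - s) ^ 2 + h ^ 2 = b ^ 2

def V (n : ℚ) : Set ℚ := {r | 0 < r ∧ ∃ z : ℚ, 0 < z ∧ z ^ 2 = (r ^ 2 + 1) ^ 2 + n ^ 2 * r ^ 2}

lemma dbl (n w y : ℚ) (hw : 0 < w) (hy : 0 < y) (h1 : w ≠ 1)
    (h : y ^ 2 = w * ((w + 1) ^ 2 + n ^ 2 * w)) : |w ^ 2 - 1| / (2 * y) ∈ V n := by
  refine ⟨div_pos (abs_pos.2 fun e => h1 (by nlinarith)) (by positivity),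
    (w ^ 4 + 2 * (n ^ 2 + 2) * w ^ 3 + 6 * w ^ 2 + 2 * (n ^ 2 + 2) * w + 1) / (4 * y ^ 2),
    by positivity, ?_⟩
  rw [div_pow |w ^ 2 - 1|, sq_abs, mul_pow 2 y, h]
  field_simp
  ring

lemma intsq (q : ℚ) (N : ℤ) (h : q ^ 2 = N) : ∃ z : ℤ, (z : ℚ) = q :=
  IsIntegrallyClosed.exists_algebraMap_eq_of_isIntegral_pow (n := 2) (by norm_num)
    (h ▸ isIntegral_algebraMap)

lemma nsq (A B : ℤ) (hA : 0 < A) (hB : 0 < B) (h : A = 1 ∨ B = 1) (y : ℚ) :
    y ^ 2 ≠ 4 + ((A : ℚ) / B) ^ 2 := by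
  intro e
  obtain ⟨z, hz⟩ := intsq (|y| * B) (4 * B ^ 2 + A ^ 2) (by
    rw [mul_pow, sq_abs, e]; push_cast; field_simp)
  have h1 : z ^ 2 = 4 * B ^ 2 + A ^ 2 := by
    have : (z : ℚ) ^ 2 = 4 * B ^ 2 + A ^ 2 := by rw [hz, mul_pow, sq_abs, e]; field_simp
    exact_mod_cast this
  have h2 : 0 ≤ z := by
    have : (0 : ℚ) ≤ z := by rw [hz]; positivity
    exact_mod_cast this
  rcases h with rfl | rfl
  · have : 2 * B < z := by nlinarith
    nlinarith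
  · have a1 : A < z := by nlinarith
    have a2 : z < A + 2 := by nlinarith
    obtain rfl : z = A + 1 := by omega
    have : 2 * A = 3 := by linarith
    omega

lemma step (A B : ℤ) (hA : 0 < A) (hB : 0 < B) (h : A = 1 ∨ B = 1) (r : ℚ) (hr : r ∈ V (A / B)) :
    ∃ r' ∈ V (A / B), (if A = 1 then r.num + r.den else r.num * r.den) <
      (if A = 1 then r'.num + r'.den else r'.num * r'.den) := by
  obtain ⟨h0, z, hz, e⟩ := hr
  have h1 : r ^ 2 ≠ 1 := fun h1 => nsq A B hA hB h z (by rw [e, h1]; ring)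
  have h2 := dbl (A / B) (r ^ 2) (r * z) (by positivity) (by positivity) h1 (by rw [mul_pow, e])
  refine ⟨_, h2, ?_⟩
  have h3 := h2.1
  generalize hr' : |(r ^ 2) ^ 2 - 1| / (2 * (r * z)) = r' at *
  have hp : 0 < r.num := Rat.num_pos.2 h0
  have hp' : 0 < r'.num := Rat.num_pos.2 h3
  have hq : (0 : ℤ) < r.den := by exact_mod_cast r.pos
  have hq' : (0 : ℤ) < r'.den := by exact_mod_cast r'.pos
  have c : IsCoprime r.num r.den := Int.isCoprime_iff_gcd_eq_one.2 r.reduced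
  have c' : IsCoprime r'.num r'.den := Int.isCoprime_iff_gcd_eq_one.2 r'.reduced
  have e1 := (Rat.num_div_den r).symm
  have e2 := (Rat.num_div_den r').symm
  rw [← Int.cast_natCast] at e1 e2
  generalize r.num = p at *
  generalize (r.den : ℤ) = q at *
  generalize r'.num = p' at *
  generalize (r'.den : ℤ) = q' at *
  have e3 : (z * B * q ^ 2) ^ 2 = ((B ^ 2 * (p ^ 2 + q ^ 2) ^ 2 + A ^ 2 * p ^ 2 * q ^ 2 : ℤ) : ℚ) := by
    rw [mul_pow, mul_pow, e, e1]; push_cast; field_simp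
  obtain ⟨Z, hZ⟩ := intsq _ _ e3
  have e4 : Z ^ 2 = B ^ 2 * (p ^ 2 + q ^ 2) ^ 2 + A ^ 2 * p ^ 2 * q ^ 2 := by
    rw [← hZ] at e3; exact_mod_cast e3
  have e5 : p' * (2 * p * q * Z) = q' * B * (|p ^ 2 - q ^ 2| * (p ^ 2 + q ^ 2)) := by
    have : (p' * (2 * p * q * Z) : ℚ) = q' * B * (|(p ^ 2 - q ^ 2 : ℚ)| * (p ^ 2 + q ^ 2)) := by
      have a1 : |(r ^ 2) ^ 2 - 1| = |(p ^ 2 - q ^ 2 : ℚ)| * (p ^ 2 + q ^ 2) / q ^ 4 := by
        rw [← abs_of_pos (show (0 : ℚ) < p ^ 2 + q ^ 2 by positivity), ← abs_mul,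
          ← abs_of_pos (show (0 : ℚ) < q ^ 4 by positivity), ← abs_div, e1]
        congr 1; field_simp; ring
      rw [a1, e2, e1] at hr'
      rw [hZ]
      field_simp at hr' ⊢
      linarith
    exact_mod_cast this
  have c1 : IsCoprime (p ^ 2 + q ^ 2) p := by
    simpa [sq, add_comm] using (c.symm.pow_left (m := 2)).add_mul_left_left p
  have c2 : IsCoprime (p ^ 2 + q ^ 2) q := by
    simpa [sq] using (c.pow_left (m := 2)).add_mul_left_left q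
  have hne : ¬ (p = 1 ∧ q = 1) := by
    rintro ⟨rfl, rfl⟩; apply h1; rw [e1]; simp
  split_ifs with hA1
  · subst hA1
    have c3 : IsCoprime (p ^ 2 + q ^ 2) Z := by
      apply IsCoprime.of_isCoprime_of_dvd_right _ (dvd_pow_self Z two_ne_zero)
      rw [e4, show B ^ 2 * (p ^ 2 + q ^ 2) ^ 2 + 1 ^ 2 * p ^ 2 * q ^ 2 =
        p ^ 2 * q ^ 2 + (p ^ 2 + q ^ 2) * (B ^ 2 * (p ^ 2 + q ^ 2)) by ring]
      exact (c1.pow_right.mul_right c2.pow_right).add_mul_left_right _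
    have d : p ^ 2 + q ^ 2 ∣ 2 * p' := ((c1.mul_right c2).mul_right c3).dvd_of_dvd_mul_right
      ⟨q' * B * |p ^ 2 - q ^ 2|, by linear_combination e5⟩
    have := Int.le_of_dvd (by positivity) d
    by_cases hp1 : p = 1
    · have : 2 ≤ q := by omega
      nlinarith
    · have : 2 ≤ p := by omega
      nlinarith [sq_nonneg (q - 1)]
  · obtain rfl : B = 1 := by tauto
    have c4 : IsCoprime (p * q) (p ^ 2 - q ^ 2) := by
      apply IsCoprime.mul_left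
      · simpa [sq, sub_eq_neg_add] using (c.pow_right (n := 2)).neg_right.add_mul_left_right p
      · simpa [sq, sub_eq_add_neg] using (c.symm.pow_right (n := 2)).add_mul_left_right (-q)
    obtain ⟨j, rfl⟩ : p * q ∣ q' := (c4.abs_right.mul_right (c1.mul_right c2).symm).dvd_of_dvd_mul_right
      ⟨p' * 2 * Z, by linear_combination -e5⟩
    have hpq : 0 < p * q := by positivity
    have hj : 0 < j := (mul_pos_iff_of_pos_left hpq).1 hq'
    by_contra hc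
    have a1 : p' * j ≤ 1 := by nlinarith
    obtain rfl : p' = 1 := by nlinarith
    obtain rfl : j = 1 := by omega
    have a2 : 2 * Z = |p ^ 2 - q ^ 2| * (p ^ 2 + q ^ 2) :=
      mul_left_cancel₀ hpq.ne' (by linear_combination e5)
    have a3 : (2 * A * (p * q)) ^ 2 = (p ^ 2 + q ^ 2) ^ 2 * ((p ^ 2 - q ^ 2) ^ 2 - 4) := by
      have := congrArg (· ^ 2) a2
      simp only [mul_pow, sq_abs] at this
      linear_combination this - 4 * e4
    obtain ⟨i, hi⟩ : p ^ 2 + q ^ 2 ∣ 2 * A * (p * q) := (Int.pow_dvd_pow_iff two_ne_zero).1 ⟨_, a3⟩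
    have hi0 : 0 < i := by
      by_contra hc
      nlinarith [mul_pos hA hpq, mul_nonneg (show 0 ≤ p ^ 2 + q ^ 2 by positivity) (neg_nonneg.2 (not_lt.1 hc))]
    rw [hi, mul_pow] at a3
    have a4 := mul_left_cancel₀ (by positivity) a3
    exact nsq i 1 hi0 one_pos (Or.inr rfl) (p ^ 2 - q ^ 2) (by
      have : ((i : ℚ)) ^ 2 = (p ^ 2 - q ^ 2) ^ 2 - 4 := by exact_mod_cast a4
      simp; linarith)

lemma inf (A B : ℤ) (hA : 0 < A) (hB : 0 < B) (h : A = 1 ∨ B = 1) (hne : (V (A / B)).Nonempty) :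
    (V (A / B)).Infinite := by
  intro hf
  obtain ⟨r, hr, hm⟩ := Set.exists_max_image _
    (fun r : ℚ => if A = 1 then r.num + r.den else r.num * r.den) hf hne
  obtain ⟨r', h1, h2⟩ := step A B hA hB h r hr
  exact absurd (hm r' h1) (not_le.2 h2)

lemma scale (x y z : ℚ) (hx : 0 < x) (hy : 0 < y) (hz : 0 < z) : ∃ (l : ℚ) (a b c : ℕ), 0 < l ∧
    l * x = a ∧ l * y = b ∧ l * z = c ∧ Nat.gcd a (Nat.gcd b c) = 1 := by
  have key : ∀ (q : ℚ) (m : ℕ), 0 < q → ∃ a : ℕ, (q.den * m : ℕ) * q = a := fun q m hq =>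
    ⟨q.num.natAbs * m, by
      push_cast
      rw [Nat.cast_natAbs, abs_of_pos (Rat.num_pos.2 hq), mul_right_comm, Rat.den_mul_eq_num]⟩
  obtain ⟨a, ha⟩ := key x (y.den * z.den) hx
  obtain ⟨b, hb⟩ := key y (x.den * z.den) hy
  obtain ⟨c, hc⟩ := key z (x.den * y.den) hz
  have ha0 : 0 < a := by
    have : (0 : ℚ) < a := by rw [← ha]; positivity
    exact_mod_cast this
  have hg : 0 < Nat.gcd a (Nat.gcd b c) := Nat.gcd_pos_of_pos_left _ ha0
  obtain ⟨a', e1⟩ := Nat.gcd_dvd_left a (Nat.gcd b c)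
  obtain ⟨b', e2⟩ := (Nat.gcd_dvd_right a (Nat.gcd b c)).trans (Nat.gcd_dvd_left b c)
  obtain ⟨c', e3⟩ := (Nat.gcd_dvd_right a (Nat.gcd b c)).trans (Nat.gcd_dvd_right b c)
  generalize hG : Nat.gcd a (Nat.gcd b c) = g at *
  subst e1 e2 e3
  rw [Nat.gcd_mul_left, Nat.gcd_mul_left] at hG
  refine ⟨(x.den * y.den * z.den : ℕ) / g, a', b', c', by positivity, ?_, ?_, ?_,
    (Nat.mul_eq_left hg.ne').1 hG⟩ <;> push_cast at * <;> field_simp <;> linarith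

lemma main (A B : ℕ) (hA : 0 < A) (hB : 0 < B) (hAB : A = 1 ∨ B = 1)
    (hex : ∃ s a b h, Tri s a b h ∧ (B * s : ℝ) = A * h) :
    Set.Infinite {x : ℕ × ℕ × ℕ | Nat.gcd x.1 (Nat.gcd x.2.1 x.2.2) = 1 ∧
      ∃ h, Tri x.1 x.2.1 x.2.2 h ∧ (B * x.1 : ℝ) = A * h} := by
  have hA' : (0 : ℤ) < A := by exact_mod_cast hA
  have hB' : (0 : ℤ) < B := by exact_mod_cast hB
  have hAB' : (A : ℤ) = 1 ∨ (B : ℤ) = 1 := by omega
  set n : ℚ := ((A : ℤ) : ℚ) / (B : ℤ) with hn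
  have hn0 : 0 < n := by positivity
  have hV : (V n).Infinite := by
    apply inf A B hA' hB' hAB'
    obtain ⟨s, a, b, h, ⟨hs, ha, hb, hh, t, h1, h2⟩, h3⟩ := hex
    obtain ⟨T, rfl⟩ : ∃ T : ℚ, t = T := ⟨(a ^ 2 - b ^ 2 + s ^ 2) / (2 * s), by
      push_cast; field_simp; linarith⟩
    obtain ⟨H, rfl, hH⟩ : ∃ H : ℚ, h = H ∧ s = n * H := ⟨B * s / A, by
      push_cast; field_simp; linarith, by rw [hn]; push_cast; field_simp⟩
    have g0 : 0 < H := by exact_mod_cast hh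
    have g1 : T ^ 2 + H ^ 2 = a ^ 2 := by exact_mod_cast h1
    have g2 : (T - s) ^ 2 + H ^ 2 = b ^ 2 := by exact_mod_cast h2
    have g3 : 0 < T + a := by
      by_contra hc
      nlinarith [Nat.cast_nonneg (α := ℚ) a]
    have g4 : 0 < T - s + b := by
      by_contra hc
      nlinarith [Nat.cast_nonneg (α := ℚ) b]
    obtain ⟨α, hα, f1⟩ : ∃ α : ℚ, 0 < α ∧ 2 * T = H * (α - 1 / α) :=
      ⟨(T + a) / H, by positivity, by field_simp; linarith⟩
    obtain ⟨β, hβ, f2⟩ : ∃ β : ℚ, 0 < β ∧ 2 * (T - s) = H * (β - 1 / β) :=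
      ⟨(T - s + b) / H, by positivity, by field_simp; linarith⟩
    have f3 : n = (α - β) * (α * β + 1) / (2 * (α * β)) := by
      apply mul_right_cancel₀ g0.ne'
      rw [← hH, show (s : ℚ) = (2 * T - 2 * (T - s)) / 2 by ring, f1, f2]
      field_simp
      ring
    have f4 : ((α + β) * (α * β + 1) / 2) ^ 2 = α * β * ((α * β + 1) ^ 2 + n ^ 2 * (α * β)) := by
      rw [f3]; field_simp; ring
    exact ⟨_, dbl n (α * β) _ (by positivity) (by positivity)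
      (fun e => nsq A B hA' hB' hAB' _ (by rw [f4, e]; ring)) f4⟩
  intro hf
  refine hV (Set.Finite.of_finite_fibers (fun r : ℚ => (r + 1 / r) ^ 2) ((hf.image
    fun x => n ^ 2 * ((x.2.1 + x.2.2 : ℚ) ^ 2 / x.1 ^ 2 - 1)).subset ?_) ?_)
  · rintro _ ⟨r, ⟨hr, z, hz, e⟩, rfl⟩
    have k1 : 0 < z - n * r := by
      by_contra hc
      nlinarith [mul_pos hn0 hr, sq_nonneg r]
    obtain ⟨l, s, a, b, hl, e1, e2, e3, hg⟩ := scale n
      ((r * (z + n * r) + (z - n * r) / r) / (2 * (r ^ 2 + 1)))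
      ((r * (z - n * r) + (z + n * r) / r) / (2 * (r ^ 2 + 1))) hn0 (by positivity) (by positivity)
    have pos : ∀ (m : ℕ) (q : ℚ), 0 < q → l * q = m → 0 < m := fun m q hq e => by
      have : (0 : ℚ) < m := by rw [← e]; positivity
      exact_mod_cast this
    refine ⟨(s, a, b), ⟨hg, l, ⟨pos s _ hn0 e1, pos a _ (by positivity) e2,
      pos b _ (by positivity) e3, by exact_mod_cast hl,
      ((l * ((r * (z + n * r) - (z - n * r) / r) / (2 * (r ^ 2 + 1))) : ℚ) : ℝ), ?_, ?_⟩, ?_⟩, ?_⟩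
    · have : (l * ((r * (z + n * r) - (z - n * r) / r) / (2 * (r ^ 2 + 1)))) ^ 2 + l ^ 2 = a ^ 2 := by
        rw [← e2]; field_simp; linear_combination (-4 * r ^ 2) * e
      exact_mod_cast this
    · have : (l * ((r * (z + n * r) - (z - n * r) / r) / (2 * (r ^ 2 + 1))) - s) ^ 2 + l ^ 2 =
          b ^ 2 := by
        rw [← e3, ← e1]; field_simp; linear_combination (-4 * r ^ 2) * e
      exact_mod_cast this
    · have : (B * s : ℚ) = A * l := by rw [← e1, hn]; push_cast; field_simp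
      exact_mod_cast this
    · simp only [← e1, ← e2, ← e3]
      field_simp
      linear_combination (4 * (r ^ 2 + 1) ^ 2) * e
  · rintro _ ⟨r, ⟨hr, -⟩, rfl⟩
    refine ((Set.finite_singleton (1 / r)).insert r).subset ?_
    rintro x ⟨⟨hx, -⟩, e⟩
    have e' : x + 1 / x = r + 1 / r := (pow_left_inj₀ (by positivity) (by positivity) two_ne_zero).1 e
    have : (x - r) * (x - 1 / r) = 0 := by field_simp at e' ⊢; linarith
    rcases mul_eq_zero.1 this with h | h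
    · left; linarith
    · right; exact sub_eq_zero.1 h

theorem result (k : ℕ) (hk : 0 < k) :
    ((∃ s a b h, Tri s a b h ∧ s / h = k) → Set.Infinite {x : ℕ × ℕ × ℕ |
      Nat.gcd x.1 (Nat.gcd x.2.1 x.2.2) = 1 ∧ ∃ h, Tri x.1 x.2.1 x.2.2 h ∧ x.1 / h = k}) ∧
    ((∃ s a b h, Tri s a b h ∧ h / s = k) → Set.Infinite {x : ℕ × ℕ × ℕ |
      Nat.gcd x.1 (Nat.gcd x.2.1 x.2.2) = 1 ∧ ∃ h, Tri x.1 x.2.1 x.2.2 h ∧ h / x.1 = k}) := by
  constructor
  · rintro ⟨s, a, b, h, h1, h2⟩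
    refine (main k 1 hk one_pos (Or.inr rfl) ⟨s, a, b, h, h1, ?_⟩).mono ?_
    · simpa using (div_eq_iff h1.2.2.2.1.ne').1 h2
    · rintro x ⟨g, h, h1, h2⟩
      exact ⟨g, h, h1, (div_eq_iff h1.2.2.2.1.ne').2 (by simpa using h2)⟩
  · rintro ⟨s, a, b, h, h1, h2⟩
    refine (main 1 k one_pos hk (Or.inl rfl) ⟨s, a, b, h, h1, ?_⟩).mono ?_
    · simpa using ((div_eq_iff (by exact_mod_cast h1.1.ne')).1 h2).symm
    · rintro x ⟨g, h, h1, h2⟩
      exact ⟨g, h, h1, (div_eq_iff (by exact_mod_cast h1.1.ne')).2 (by simpa using h2.symm)⟩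

end Pool.Agent.Results.MP_ebd346_nt.Inf
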